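import Mathlib

/-! # Monomial representations: dimension and irreducibility -/

namespace Pool.Agent.N18.Onn

open Classical

set_option linter.unusedSectionVars false

variable {G : Type} [Group G] [Finite G] (T : Subgroup G) (L : T →* ℂˣ)

/-- the space of functions `f` with `f (t x) = L t * f x` -/
def Sp : Submodule ℂ (G → ℂ) where
  carrier := {f | ∀ (t : T) (x : G), f (t * x) = (L t : ℂ) * f x}
  add_mem' := by
    intro a b ha hb t x
    simp only [Pi.add_apply]
    rw [ha t x, hb t x]; ring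
  zero_mem' := by
    intro t x; simp
  smul_mem' := by
    intro c a ha t x
    simp only [Pi.smul_apply, smul_eq_mul]
    rw [ha t x]; ring

lemma mem_Sp {f : G → ℂ} : f ∈ Sp T L ↔ ∀ (t : T) (x : G), f (t * x) = (L t : ℂ) * f x := Iff.rfl

/-- right translation on functions -/
def tr : Representation ℂ G (G → ℂ) where
  toFun g :=
    { toFun := fun f x => f (x * g)
      map_add' := by intro a b; rfl
      map_smul' := by intro a b; rfl }
  map_one' := by
    apply LinearMap.ext; intro f; funext x; simp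
  map_mul' := by
    intro a b; apply LinearMap.ext; intro f; funext x; simp [mul_assoc]

lemma tr_apply (g : G) (f : G → ℂ) (x : G) : tr g f x = f (x * g) := rfl

lemma tr_mem (g : G) {f : G → ℂ} (hf : f ∈ Sp T L) : tr g f ∈ Sp T L := by
  intro t x
  rw [tr_apply, tr_apply, mul_assoc, hf t]

/-- the monomial representation -/
def rep : Representation ℂ G (Sp T L) where
  toFun g := (tr g).restrict (fun f hf => tr_mem T L g hf)
  map_one' := by
    apply LinearMap.ext; intro f; apply Subtype.ext; funext x; simp [LinearMap.restrict_apply]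
  map_mul' := by
    intro a b; apply LinearMap.ext; intro f; apply Subtype.ext; funext x
    simp [LinearMap.restrict_apply]

lemma rep_apply (g : G) (f : Sp T L) (x : G) : (rep T L g f : G → ℂ) x = (f : G → ℂ) (x * g) := rfl

lemma out_mem (x : G) : x * (QuotientGroup.mk (x⁻¹) : G ⧸ T).out ∈ T := by
  obtain ⟨t, ht⟩ := QuotientGroup.mk_out_eq_mul T (x⁻¹)
  rw [ht]; simp

/-- the space has dimension the index -/
noncomputable def equivQ : Sp T L ≃ₗ[ℂ] (G ⧸ T → ℂ) where
  toFun f q := (f : G → ℂ) (q.out)⁻¹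
  map_add' := by intro a b; rfl
  map_smul' := by intro a b; rfl
  invFun F := ⟨fun x => (L ⟨x * (QuotientGroup.mk (x⁻¹) : G ⧸ T).out, out_mem T x⟩ : ℂ) *
      F (QuotientGroup.mk (x⁻¹)), by
    intro t x
    have h1 : (QuotientGroup.mk ((↑t * x)⁻¹) : G ⧸ T) = QuotientGroup.mk (x⁻¹) := by
      rw [QuotientGroup.eq]
      simp
    have h2 : (⟨↑t * x * (QuotientGroup.mk ((↑t * x)⁻¹) : G ⧸ T).out, out_mem T (↑t * x)⟩ : T) =
        t * ⟨x * (QuotientGroup.mk (x⁻¹) : G ⧸ T).out, out_mem T x⟩ := by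
      apply Subtype.ext
      simp only [Subgroup.coe_mul]
      rw [h1, mul_assoc]
    simp only []
    rw [h2, h1, map_mul]
    push_cast
    ring⟩
  left_inv := by
    intro f
    apply Subtype.ext
    funext x
    simp only []
    have h := f.2 ⟨x * (QuotientGroup.mk (x⁻¹) : G ⧸ T).out, out_mem T x⟩
      ((QuotientGroup.mk (x⁻¹) : G ⧸ T).out)⁻¹
    rw [← h]
    simp
  right_inv := by
    intro F
    funext q
    simp only [inv_inv]
    have h1 : (QuotientGroup.mk (q.out) : G ⧸ T) = q := QuotientGroup.out_eq' q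
    have hm : (q.out)⁻¹ * (QuotientGroup.mk (q.out) : G ⧸ T).out ∈ T := by
      rw [h1]; simp
    have h2 : (⟨(q.out)⁻¹ * (QuotientGroup.mk (q.out) : G ⧸ T).out, hm⟩ : T) = 1 := by
      apply Subtype.ext
      simp only [Subgroup.coe_one]
      rw [h1]; simp
    rw [h2, h1]
    simp

lemma finrank_Sp : Module.finrank ℂ (Sp T L) = T.index := by
  rw [(equivQ T L).finrank_eq, Subgroup.index]
  have : Fintype (G ⧸ T) := Fintype.ofFinite _
  rw [Module.finrank_fintype_fun_eq_card, Nat.card_eq_fintype_card]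

instance : FiniteDimensional ℂ (Sp T L) := by
  have : Fintype G := Fintype.ofFinite G
  infer_instance

/-- the function supported on `T` -/
noncomputable def dl : Sp T L := ⟨fun x => if h : x ∈ T then (L ⟨x, h⟩ : ℂ) else 0, by
  intro t x
  by_cases hx : x ∈ T
  · have h2 : (t : G) * x ∈ T := T.mul_mem t.2 hx
    simp only [hx, h2, dif_pos]
    have : (⟨(t : G) * x, h2⟩ : T) = t * ⟨x, hx⟩ := rfl
    rw [this, map_mul]; push_cast; ring
  · have h2 : ¬ ((t : G) * x ∈ T) := fun h => hx (by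
      have := T.mul_mem (T.inv_mem t.2) h
      simpa using this)
    simp only [hx, h2, dif_neg, not_false_eq_true, mul_zero]⟩

lemma dl_of_mem {x : G} (h : x ∈ T) : (dl T L : G → ℂ) x = (L ⟨x, h⟩ : ℂ) := by
  simp only [dl, h, dif_pos]

lemma dl_of_not_mem {x : G} (h : x ∉ T) : (dl T L : G → ℂ) x = 0 := by
  simp only [dl, h, dif_neg, not_false_eq_true]

/-- every element of the space is a combination of translates of `dl` -/
lemma span_dl (W : Submodule ℂ (Sp T L)) (hW : ∀ g v, v ∈ W → rep T L g v ∈ W)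
    (hd : dl T L ∈ W) : W = ⊤ := by
  have : Fintype G := Fintype.ofFinite G
  have : Fintype T := Fintype.ofFinite T
  rw [eq_top_iff]
  intro f _
  have key : (∑ g : G, ((f : G → ℂ) g) • rep T L g⁻¹ (dl T L)) = (Fintype.card T : ℂ) • f := by
    apply Subtype.ext
    funext x
    have e1 : ((∑ g : G, ((f : G → ℂ) g) • rep T L g⁻¹ (dl T L) : Sp T L) : G → ℂ) x =
        ∑ g : G, (f : G → ℂ) g * (dl T L : G → ℂ) (x * g⁻¹) := by
      rw [← Submodule.subtype_apply, map_sum, Finset.sum_apply]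
      apply Finset.sum_congr rfl
      intro g _
      rfl
    rw [e1]
    have e2 : ∑ g : G, (f : G → ℂ) g * (dl T L : G → ℂ) (x * g⁻¹) =
        ∑ h : G, (f : G → ℂ) (h⁻¹ * x) * (dl T L : G → ℂ) h := by
      apply Fintype.sum_bijective (fun g => x * g⁻¹)
      · exact (Equiv.trans (Equiv.inv G) (Equiv.mulLeft x)).bijective
      · intro g
        simp
    rw [e2]
    have e3 : ∑ h : G, (f : G → ℂ) (h⁻¹ * x) * (dl T L : G → ℂ) h =
        ∑ h : G, if h ∈ T then (f : G → ℂ) x else 0 := by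
      apply Finset.sum_congr rfl
      intro h _
      split_ifs with hh
      · rw [dl_of_mem T L hh]
        have := f.2 ⟨h⁻¹, T.inv_mem hh⟩ x
        simp only [] at this
        rw [this]
        have h3 : L ⟨h⁻¹, T.inv_mem hh⟩ * L ⟨h, hh⟩ = 1 := by
          rw [← map_mul]
          have : (⟨h⁻¹, T.inv_mem hh⟩ * ⟨h, hh⟩ : T) = 1 := by
            apply Subtype.ext; simp
          rw [this, map_one]
        have h4 : (L ⟨h⁻¹, T.inv_mem hh⟩ : ℂ) * (L ⟨h, hh⟩ : ℂ) = 1 := by
          rw [← Units.val_mul, h3]; rfl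
        linear_combination ((f : G → ℂ) x) * h4
      · rw [dl_of_not_mem T L hh, mul_zero]
    rw [e3, ← Finset.sum_filter, Finset.sum_const, nsmul_eq_mul]
    have e4 : (Finset.filter (fun h : G => h ∈ T) Finset.univ).card = Fintype.card T := by
      rw [Fintype.card_subtype]
    rw [e4]
    rfl
  have hc : (Fintype.card T : ℂ) ≠ 0 := by
    exact_mod_cast Fintype.card_ne_zero
  have h5 : f = (Fintype.card T : ℂ)⁻¹ • ∑ g : G, ((f : G → ℂ) g) • rep T L g⁻¹ (dl T L) := by
    rw [key, smul_smul, inv_mul_cancel₀ hc, one_smul]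
  rw [h5]
  apply W.smul_mem
  apply W.sum_mem
  intro g _
  exact W.smul_mem _ (hW _ _ hd)

/-- irreducibility criterion: `K` is a subgroup normalised by all elements, contained in `T`, such that
only elements of `T` fix the restriction of `L` to `K`. -/
theorem irred (K : Subgroup G) [K.Normal] (hKT : K ≤ T)
    (hst : ∀ x : G, x ∉ T → ∃ k : K, L ⟨x * k * x⁻¹, hKT (Subgroup.Normal.conj_mem inferInstance _ k.2 x)⟩ ≠
      L ⟨k, hKT k.2⟩)
    (W : Submodule ℂ (Sp T L)) (hW : ∀ g v, v ∈ W → rep T L g v ∈ W) : W = ⊥ ∨ W = ⊤ := by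
  have : Fintype G := Fintype.ofFinite G
  have : Fintype K := Fintype.ofFinite K
  by_cases hb : W = ⊥
  · left; exact hb
  right
  apply span_dl T L W hW
  obtain ⟨f, hfW, hf0⟩ := (Submodule.ne_bot_iff W).1 hb
  have : ∃ g : G, (f : G → ℂ) g ≠ 0 := by
    by_contra hcon
    push Not at hcon
    apply hf0
    apply Subtype.ext
    funext x
    exact hcon x
  obtain ⟨g0, hg0⟩ := this
  set f' := rep T L g0 f with hf'
  have hf'W : f' ∈ W := hW _ _ hfW
  have hf'1 : (f' : G → ℂ) 1 ≠ 0 := by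
    rw [hf', rep_apply, one_mul]; exact hg0
  -- the projection
  set F : Sp T L := ∑ k : K, ((L ⟨k, hKT k.2⟩ : ℂ))⁻¹ • rep T L k f' with hF
  have hFW : F ∈ W := by
    apply W.sum_mem
    intro k _
    exact W.smul_mem _ (hW _ _ hf'W)
  have hFx : ∀ x : G, (F : G → ℂ) x = (f' : G → ℂ) x *
      ∑ k : K, ((L ⟨k, hKT k.2⟩ : ℂ))⁻¹ *
        (L ⟨x * k * x⁻¹, hKT (Subgroup.Normal.conj_mem inferInstance _ k.2 x)⟩ : ℂ) := by
    intro x
    rw [hF, ← Submodule.subtype_apply, map_sum, Finset.sum_apply, Finset.mul_sum]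
    apply Finset.sum_congr rfl
    intro k _
    have h1 : (f' : G → ℂ) (x * k) =
        (L ⟨x * k * x⁻¹, hKT (Subgroup.Normal.conj_mem inferInstance _ k.2 x)⟩ : ℂ) *
          (f' : G → ℂ) x := by
      have := f'.2 ⟨x * k * x⁻¹, hKT (Subgroup.Normal.conj_mem inferInstance _ k.2 x)⟩ x
      rw [← this]
      simp
    calc ((Sp T L).subtype (((L ⟨k, hKT k.2⟩ : ℂ))⁻¹ • rep T L k f')) x
        = ((L ⟨k, hKT k.2⟩ : ℂ))⁻¹ * (f' : G → ℂ) (x * k) := rfl
      _ = _ := by rw [h1]; ring
  -- on T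
  have hFT : ∀ x : G, (F : G → ℂ) x = ((Fintype.card K : ℂ) * (f' : G → ℂ) 1) * (dl T L : G → ℂ) x := by
    intro x
    rw [hFx]
    by_cases hx : x ∈ T
    · rw [dl_of_mem T L hx]
      have h1 : ∑ k : K, ((L ⟨k, hKT k.2⟩ : ℂ))⁻¹ *
        (L ⟨x * k * x⁻¹, hKT (Subgroup.Normal.conj_mem inferInstance _ k.2 x)⟩ : ℂ) =
          (Fintype.card K : ℂ) := by
        have : ∀ k : K, ((L ⟨k, hKT k.2⟩ : ℂ))⁻¹ *
          (L ⟨x * k * x⁻¹, hKT (Subgroup.Normal.conj_mem inferInstance _ k.2 x)⟩ : ℂ) = 1 := by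
          intro k
          have e : L ⟨x * k * x⁻¹, hKT (Subgroup.Normal.conj_mem inferInstance _ k.2 x)⟩ =
              L ⟨k, hKT k.2⟩ := by
            have : (⟨x * k * x⁻¹, hKT (Subgroup.Normal.conj_mem inferInstance _ k.2 x)⟩ : T) =
              ⟨x, hx⟩ * ⟨k, hKT k.2⟩ * (⟨x, hx⟩)⁻¹ := rfl
            rw [this, map_mul, map_mul, map_inv, mul_comm (L ⟨x, hx⟩), mul_assoc, mul_inv_cancel,
              mul_one]
          rw [e]
          exact inv_mul_cancel₀ (Units.ne_zero _)
        rw [Finset.sum_congr rfl (fun k _ => this k)]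
        simp
      rw [h1]
      have h2 : (f' : G → ℂ) x = (L ⟨x, hx⟩ : ℂ) * (f' : G → ℂ) 1 := by
        have := f'.2 ⟨x, hx⟩ 1
        simpa using this
      rw [h2]; ring
    · rw [dl_of_not_mem T L hx, mul_zero]
      have h1 : ∑ k : K, ((L ⟨k, hKT k.2⟩ : ℂ))⁻¹ *
        (L ⟨x * k * x⁻¹, hKT (Subgroup.Normal.conj_mem inferInstance _ k.2 x)⟩ : ℂ) = 0 := by
        -- orthogonality
        let ψ : K →* ℂˣ :=
          { toFun := fun k => (L ⟨k, hKT k.2⟩)⁻¹ *
              L ⟨x * k * x⁻¹, hKT (Subgroup.Normal.conj_mem inferInstance _ k.2 x)⟩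
            map_one' := by
              have h1 : (⟨((1 : K) : G), hKT (1 : K).2⟩ : T) = 1 := rfl
              have h2 : (⟨x * ((1 : K) : G) * x⁻¹, hKT (Subgroup.Normal.conj_mem inferInstance _ (1 : K).2 x)⟩ : T) = 1 := by
                apply Subtype.ext; simp
              rw [h1, h2]; simp
            map_mul' := by
              intro a b
              have h1 : (⟨((a * b : K) : G), hKT (a * b).2⟩ : T) = ⟨a, hKT a.2⟩ * ⟨b, hKT b.2⟩ := rfl
              have h2 : (⟨x * ((a * b : K) : G) * x⁻¹, hKT (Subgroup.Normal.conj_mem inferInstance _ (a * b).2 x)⟩ : T) =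
                ⟨x * a * x⁻¹, hKT (Subgroup.Normal.conj_mem inferInstance _ a.2 x)⟩ *
                ⟨x * b * x⁻¹, hKT (Subgroup.Normal.conj_mem inferInstance _ b.2 x)⟩ := by
                apply Subtype.ext
                simp only [Subgroup.coe_mul]
                group
              rw [h1, h2, map_mul, map_mul, mul_inv]
              exact mul_mul_mul_comm _ _ _ _ }
        obtain ⟨k0, hk0⟩ := hst x hx
        have hψ : (ψ k0 : ℂ) ≠ 1 := by
          intro h
          apply hk0
          have : ψ k0 = 1 := Units.ext h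
          have h3 : (L ⟨k0, hKT k0.2⟩)⁻¹ *
              L ⟨x * k0 * x⁻¹, hKT (Subgroup.Normal.conj_mem inferInstance _ k0.2 x)⟩ = 1 := this
          rw [inv_mul_eq_one] at h3
          exact h3.symm
        have hs : (ψ k0 : ℂ) * ∑ k : K, (ψ k : ℂ) = ∑ k : K, (ψ k : ℂ) := by
          rw [Finset.mul_sum]
          apply Fintype.sum_bijective (fun k => k0 * k) (Group.mulLeft_bijective k0)
          intro k
          rw [map_mul, Units.val_mul]
        have h0 : ∑ k : K, (ψ k : ℂ) = 0 := by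
          have : ((ψ k0 : ℂ) - 1) * ∑ k : K, (ψ k : ℂ) = 0 := by
            rw [sub_mul, hs, one_mul, sub_self]
          rcases mul_eq_zero.1 this with h | h
          · exact absurd (sub_eq_zero.1 h) hψ
          · exact h
        rw [← h0]
        apply Finset.sum_congr rfl
        intro k _
        show _ = (((L ⟨k, hKT k.2⟩)⁻¹ *
              L ⟨x * k * x⁻¹, hKT (Subgroup.Normal.conj_mem inferInstance _ k.2 x)⟩ : ℂˣ) : ℂ)
        rw [Units.val_mul, Units.val_inv_eq_inv_val]
      rw [h1, mul_zero]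
  have hFd : F = ((Fintype.card K : ℂ) * (f' : G → ℂ) 1) • dl T L := by
    apply Subtype.ext
    funext x
    exact hFT x
  have hc : ((Fintype.card K : ℂ) * (f' : G → ℂ) 1) ≠ 0 :=
    mul_ne_zero (by exact_mod_cast Fintype.card_ne_zero) hf'1
  have : dl T L = ((Fintype.card K : ℂ) * (f' : G → ℂ) 1)⁻¹ • F := by
    rw [hFd, smul_smul, inv_mul_cancel₀ hc, one_smul]
  rw [this]
  exact W.smul_mem _ hFW

end Pool.Agent.N18.Onn
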