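import Mathlib
import Pool.Agent.N18.Onn.Mono

/-! # A primitive irreducible representation of `GL₃(A)` of dimension `p³(p+1)(p²+p+1)` -/

namespace Pool.Agent.N18.Onn

open Matrix

set_option linter.unusedSectionVars false

/-- a local ring `A` of length two with residue field `ZMod p`, uniformiser `w` -/
structure Loc (A : Type) [CommRing A] (p : ℕ) where
  φ : A →+* ZMod p
  w : A
  surj : Function.Surjective φ
  ker : ∀ a, φ a = 0 ↔ ∃ b, a = w * b
  ann : ∀ a, w * a = 0 ↔ φ a = 0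

variable {A : Type} [CommRing A] [Finite A] {p : ℕ} [Fact p.Prime] (S : Loc A p)

namespace Loc

lemma φw : S.φ S.w = 0 := (S.ker _).2 ⟨1, by ring⟩

lemma ww : S.w * S.w = 0 := (S.ann _).2 S.φw

lemma isUnit {a : A} (ha : S.φ a ≠ 0) : IsUnit a := by
  obtain ⟨b, hb⟩ := S.surj (S.φ a)⁻¹
  have h1 : S.φ (a * b - 1) = 0 := by
    rw [map_sub, map_mul, hb, map_one, mul_inv_cancel₀ ha, sub_self]
  obtain ⟨c, hc⟩ := (S.ker _).1 h1
  have h2 : a * (b * (1 - S.w * c)) = 1 := by
    have : a * b = 1 + S.w * c := by linear_combination hc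
    calc a * (b * (1 - S.w * c)) = (a * b) * (1 - S.w * c) := by ring
      _ = (1 + S.w * c) * (1 - S.w * c) := by rw [this]
      _ = 1 - (S.w * S.w) * (c * c) := by ring
      _ = 1 := by rw [S.ww]; ring
  exact IsUnit.of_mul_eq_one _ h2

/-- reduction on `GL₃` -/
noncomputable def Pi : GL (Fin 3) A →* GL (Fin 3) (ZMod p) := Matrix.GeneralLinearGroup.map S.φ

lemma Pi_apply (g : GL (Fin 3) A) (i j : Fin 3) : (S.Pi g) i j = S.φ (g i j) := rfl

lemma Pi_surj : Function.Surjective S.Pi := by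
  intro g
  choose f hf using S.surj
  let M : Matrix (Fin 3) (Fin 3) A := fun i j => f (g i j)
  have hM : M.map S.φ = (g : Matrix (Fin 3) (Fin 3) (ZMod p)) := by
    ext i j
    exact hf _
  have hd : IsUnit M.det := by
    apply S.isUnit
    rw [RingHom.map_det]
    rw [RingHom.mapMatrix_apply, hM]
    exact (Matrix.isUnits_det_units g).ne_zero
  refine ⟨Matrix.GeneralLinearGroup.mk'' M hd, ?_⟩
  ext i j
  rw [Pi_apply]
  exact hf _

/-- the kernel of reduction -/
noncomputable def K : Subgroup (GL (Fin 3) A) := S.Pi.ker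

instance : S.K.Normal := by unfold K; infer_instance

end Loc

/-- diagonal matrices -/
noncomputable def dg (p : ℕ) [Fact p.Prime] : (Fin 3 → (ZMod p)ˣ) →* GL (Fin 3) (ZMod p) :=
  (Units.map (Matrix.diagonalRingHom (Fin 3) (ZMod p) : (Fin 3 → ZMod p) →+* _).toMonoidHom).comp
    (MulEquiv.piUnits.symm).toMonoidHom

lemma dg_apply (p : ℕ) [Fact p.Prime] (d : Fin 3 → (ZMod p)ˣ) :
    ((dg p d : GL (Fin 3) (ZMod p)) : Matrix (Fin 3) (Fin 3) (ZMod p)) =
      Matrix.diagonal (fun i => (d i : ZMod p)) := rfl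

lemma dg_inj (p : ℕ) [Fact p.Prime] : Function.Injective (dg p) := by
  intro a b h
  have h1 : Matrix.diagonal (fun i => (a i : ZMod p)) = Matrix.diagonal (fun i => (b i : ZMod p)) := by
    rw [← dg_apply, ← dg_apply, h]
  funext i
  apply Units.ext
  exact congrFun (Matrix.diagonal_injective h1) i

lemma mem_range_dg (p : ℕ) [Fact p.Prime] (g : GL (Fin 3) (ZMod p)) :
    g ∈ (dg p).range ↔ ∀ i j, i ≠ j → g i j = 0 := by
  constructor
  · rintro ⟨d, rfl⟩ i j hij
    show ((dg p d : GL (Fin 3) (ZMod p)) : Matrix (Fin 3) (Fin 3) (ZMod p)) i j = 0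
    rw [dg_apply]
    exact Matrix.diagonal_apply_ne _ hij
  · intro h
    have hg : (g : Matrix (Fin 3) (Fin 3) (ZMod p)) = Matrix.diagonal (fun i => g i i) := by
      ext i j
      by_cases hij : i = j
      · subst hij; simp
      · rw [Matrix.diagonal_apply_ne _ hij]; exact h i j hij
    have hd : IsUnit (g : Matrix (Fin 3) (Fin 3) (ZMod p)).det := Matrix.isUnits_det_units g
    rw [hg, Matrix.det_diagonal] at hd
    have hi : ∀ i, g i i ≠ 0 := by
      intro i hi
      apply hd.ne_zero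
      exact Finset.prod_eq_zero (Finset.mem_univ i) hi
    refine ⟨fun i => Units.mk0 (g i i) (hi i), ?_⟩
    apply Units.ext
    rw [dg_apply]
    exact hg.symm

/-- number of elements and index of the diagonal subgroup -/
lemma index_dg (p : ℕ) [hp : Fact p.Prime] : (dg p).range.index = p ^ 3 * (p + 1) * (p ^ 2 + p + 1) := by
  have h1 : Nat.card (dg p).range = (p - 1) ^ 3 := by
    rw [← Nat.card_congr (MonoidHom.ofInjective (dg_inj p)).toEquiv, Nat.card_eq_fintype_card]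
    simp [ZMod.card_units_eq_totient, Nat.totient_prime hp.out]
  have h2 := (dg p).range.card_mul_index
  have h3 : Nat.card (GL (Fin 3) (ZMod p)) = (p ^ 3 - 1) * (p ^ 3 - p) * (p ^ 3 - p ^ 2) := by
    have := Matrix.card_GL_field (𝔽 := ZMod p) 3
    rw [this, Fin.prod_univ_three]
    simp [ZMod.card]
  rw [h1, h3] at h2
  have hp2 := hp.out.two_le
  obtain ⟨m, rfl⟩ : ∃ m, p = m + 1 := ⟨p - 1, by omega⟩
  have hm : 0 < m := by omega
  have e1 : (m + 1) ^ 3 - 1 = m * (m ^ 2 + 3 * m + 3) := by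
    have : (m + 1) ^ 3 = m * (m ^ 2 + 3 * m + 3) + 1 := by ring
    omega
  have e2 : (m + 1) ^ 3 - (m + 1) = (m + 1) * (m * (m + 2)) := by
    have : (m + 1) ^ 3 = (m + 1) * (m * (m + 2)) + (m + 1) := by ring
    omega
  have e3 : (m + 1) ^ 3 - (m + 1) ^ 2 = (m + 1) ^ 2 * m := by
    have : (m + 1) ^ 3 = (m + 1) ^ 2 * m + (m + 1) ^ 2 := by ring
    omega
  rw [e1, e2, e3, Nat.add_sub_cancel] at h2
  have hm3 : 0 < m ^ 3 := pow_pos hm 3
  apply Nat.eq_of_mul_eq_mul_left hm3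
  rw [h2]
  ring

namespace Loc

/-- the stabiliser: matrices which are diagonal modulo the maximal ideal -/
noncomputable def T : Subgroup (GL (Fin 3) A) := (dg p).range.comap S.Pi

lemma mem_T (g : GL (Fin 3) A) : g ∈ S.T ↔ ∀ i j, i ≠ j → S.φ (g i j) = 0 := by
  rw [T, Subgroup.mem_comap, mem_range_dg]
  rfl

lemma index_T : S.T.index = p ^ 3 * (p + 1) * (p ^ 2 + p + 1) := by
  rw [T, Subgroup.index_comap_of_surjective _ S.Pi_surj, index_dg]

lemma K_le_T : S.K ≤ S.T := by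
  intro g hg
  rw [mem_T]
  intro i j hij
  have : S.Pi g = 1 := hg
  rw [← Pi_apply, this]
  show (1 : Matrix (Fin 3) (Fin 3) (ZMod p)) i j = 0
  exact Matrix.one_apply_ne hij

lemma mul_ker {a b : A} (ha : S.φ a = 0) (hb : S.φ b = 0) : a * b = 0 := by
  obtain ⟨c, rfl⟩ := (S.ker _).1 ha
  obtain ⟨d, rfl⟩ := (S.ker _).1 hb
  calc S.w * c * (S.w * d) = (S.w * S.w) * (c * d) := by ring
    _ = 0 := by rw [S.ww]; ring

/-- the `i`-th diagonal entry, on `T` -/
noncomputable def ent (i : Fin 3) : S.T →* A where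
  toFun t := (t : GL (Fin 3) A) i i
  map_one' := by simp
  map_mul' := by
    intro a b
    show (((a : GL (Fin 3) A) : Matrix (Fin 3) (Fin 3) A) * ((b : GL (Fin 3) A) : Matrix (Fin 3) (Fin 3) A)) i i = _
    rw [Matrix.mul_apply, Finset.sum_eq_single i]
    · intro j _ hj
      apply S.mul_ker
      · exact (S.mem_T _).1 a.2 i j (Ne.symm hj)
      · exact (S.mem_T _).1 b.2 j i hj
    · intro h; exact absurd (Finset.mem_univ i) h

/-- the `i`-th diagonal entry, as a unit -/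
noncomputable def entU (i : Fin 3) : S.T →* Aˣ := (S.ent i).toHomUnits

lemma entU_val (i : Fin 3) (t : S.T) : ((S.entU i t : Aˣ) : A) = (t : GL (Fin 3) A) i i := rfl

/-- the linear character of `T` -/
noncomputable def Lam (χ : Aˣ →* ℂˣ) : S.T →* ℂˣ :=
  (χ.comp (S.entU 1)) * (χ.comp (S.entU 2))⁻¹

lemma Lam_apply (χ : Aˣ →* ℂˣ) (t : S.T) : S.Lam χ t = χ (S.entU 1 t) * (χ (S.entU 2 t))⁻¹ := rfl

/-- the unit `1 + w a` -/
noncomputable def u (a : A) : Aˣ where
  val := 1 + S.w * a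
  inv := 1 - S.w * a
  val_inv := by
    calc (1 + S.w * a) * (1 - S.w * a) = 1 - (S.w * S.w) * (a * a) := by ring
      _ = 1 := by rw [S.ww]; ring
  inv_val := by
    calc (1 - S.w * a) * (1 + S.w * a) = 1 - (S.w * S.w) * (a * a) := by ring
      _ = 1 := by rw [S.ww]; ring

lemma u_val (a : A) : ((S.u a : Aˣ) : A) = 1 + S.w * a := rfl

lemma u_add (a b : A) : S.u (a + b) = S.u a * S.u b := by
  apply Units.ext
  rw [Units.val_mul, u_val, u_val, u_val]
  calc 1 + S.w * (a + b) = (1 + S.w * a) * (1 + S.w * b) - (S.w * S.w) * (a * b) := by ring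
    _ = _ := by rw [S.ww]; ring

lemma u_neg (a : A) : S.u (-a) = (S.u a)⁻¹ := by
  rw [eq_inv_iff_mul_eq_one, ← u_add]
  apply Units.ext
  rw [u_val]; simp

/-- the matrix `1 + w X` -/
noncomputable def U (X : Matrix (Fin 3) (Fin 3) A) : GL (Fin 3) A where
  val := 1 + S.w • X
  inv := 1 - S.w • X
  val_inv := by
    have : (S.w • X) * (S.w • X) = 0 := by
      rw [Matrix.smul_mul, Matrix.mul_smul, smul_smul, S.ww, zero_smul]
    generalize S.w • X = Y at *
    calc (1 + Y) * (1 - Y) = 1 - Y * Y := by noncomm_ring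
      _ = 1 := by rw [this, sub_zero]
  inv_val := by
    have : (S.w • X) * (S.w • X) = 0 := by
      rw [Matrix.smul_mul, Matrix.mul_smul, smul_smul, S.ww, zero_smul]
    generalize S.w • X = Y at *
    calc (1 - Y) * (1 + Y) = 1 - Y * Y := by noncomm_ring
      _ = 1 := by rw [this, sub_zero]

lemma U_val (X : Matrix (Fin 3) (Fin 3) A) :
    ((S.U X : GL (Fin 3) A) : Matrix (Fin 3) (Fin 3) A) = 1 + S.w • X := rfl

lemma U_apply (X : Matrix (Fin 3) (Fin 3) A) (i j : Fin 3) :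
    (S.U X) i j = (1 : Matrix (Fin 3) (Fin 3) A) i j + S.w * X i j := rfl

lemma U_mem (X : Matrix (Fin 3) (Fin 3) A) : S.U X ∈ S.K := by
  show S.Pi (S.U X) = 1
  ext i j
  rw [Pi_apply, U_apply, map_add, map_mul, S.φw, zero_mul, add_zero]
  show S.φ ((1 : Matrix (Fin 3) (Fin 3) A) i j) = (1 : Matrix (Fin 3) (Fin 3) (ZMod p)) i j
  rw [Matrix.one_apply, Matrix.one_apply]
  split_ifs <;> simp

lemma U_conj (g : GL (Fin 3) A) (X : Matrix (Fin 3) (Fin 3) A) :
    g * S.U X * g⁻¹ = S.U ((g : Matrix (Fin 3) (Fin 3) A) * X * ((g⁻¹ : GL (Fin 3) A) : Matrix (Fin 3) (Fin 3) A)) := by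
  apply Units.ext
  rw [Units.val_mul, Units.val_mul, U_val, U_val, mul_add, add_mul, mul_one]
  have : (g : Matrix (Fin 3) (Fin 3) A) * ((g⁻¹ : GL (Fin 3) A) : Matrix (Fin 3) (Fin 3) A) = 1 :=
    Units.mul_inv g
  rw [this, Matrix.mul_smul, Matrix.smul_mul]

/-- the diagonal matrix (0, 1, -1) -/
def B (A : Type) [CommRing A] : Matrix (Fin 3) (Fin 3) A := Matrix.diagonal ![0, 1, -1]

lemma Lam_U (χ : Aˣ →* ℂˣ) (X : Matrix (Fin 3) (Fin 3) A) (h : S.U X ∈ S.T) :
    S.Lam χ ⟨S.U X, h⟩ = χ (S.u ((B A * X).trace)) := by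
  have e1 : S.entU 1 ⟨S.U X, h⟩ = S.u (X 1 1) := by
    apply Units.ext
    rw [entU_val, u_val, U_apply]
    simp
  have e2 : S.entU 2 ⟨S.U X, h⟩ = S.u (X 2 2) := by
    apply Units.ext
    rw [entU_val, u_val, U_apply]
    simp
  rw [Lam_apply, e1, e2]
  have e3 : (B A * X).trace = X 1 1 + -(X 2 2) := by
    rw [B, Matrix.trace_fin_three]
    simp [Matrix.diagonal_mul]
  rw [e3, u_add, u_neg, map_mul, map_inv]

theorem fix (χ : Aˣ →* ℂˣ) (hχ : χ (S.u 1) ≠ 1) (hp2 : p ≠ 2) (x : GL (Fin 3) A) (hx : x ∉ S.T) :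
    ∃ k : S.K, S.Lam χ ⟨x * k * x⁻¹, S.K_le_T (Subgroup.Normal.conj_mem inferInstance _ k.2 x)⟩ ≠
      S.Lam χ ⟨k, S.K_le_T k.2⟩ := by
  set xi : Matrix (Fin 3) (Fin 3) A := ((x⁻¹ : GL (Fin 3) A) : Matrix (Fin 3) (Fin 3) A) with hxi
  have hxx : (x : Matrix (Fin 3) (Fin 3) A) * xi = 1 := Units.mul_inv x
  set M : Matrix (Fin 3) (Fin 3) A := xi * B A * x - B A with hM
  have hex : ∃ i j, S.φ (M i j) ≠ 0 := by
    by_contra hcon
    push Not at hcon
    apply hx
    rw [mem_T]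
    intro i j hij
    -- x * M = B x - x B
    have h1 : (x : Matrix (Fin 3) (Fin 3) A) * M = B A * x - x * B A := by
      rw [hM, mul_sub, ← mul_assoc, ← mul_assoc, hxx, one_mul]
    have h2 : S.φ (((x : Matrix (Fin 3) (Fin 3) A) * M) i j) = 0 := by
      rw [Matrix.mul_apply, map_sum]
      apply Finset.sum_eq_zero
      intro l _
      rw [map_mul, hcon, mul_zero]
    rw [h1, Matrix.sub_apply, B, Matrix.diagonal_mul, Matrix.mul_diagonal] at h2
    have h3 : (S.φ (![0, 1, -1] i) - S.φ (![0, 1, -1] j)) * S.φ (x i j) = 0 := by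
      rw [← map_sub, ← map_mul, ← h2]
      congr 1
      ring
    have h4 : (S.φ ((![0, 1, -1] : Fin 3 → A) i) - S.φ ((![0, 1, -1] : Fin 3 → A) j)) ≠ 0 := by
      have h20 : (2 : ZMod p) ≠ 0 := by
        intro h
        have := (ZMod.natCast_eq_zero_iff 2 p).1 (by exact_mod_cast h)
        exact hp2 ((Nat.prime_dvd_prime_iff_eq (Fact.out) Nat.prime_two).1 this)
      have h10 : (1 : ZMod p) ≠ 0 := one_ne_zero
      fin_cases i <;> fin_cases j <;> simp at hij ⊢ <;>
        first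
          | exact h10
          | (intro h; apply h20; linear_combination h)
          | (intro h; apply h20; linear_combination (-1 : ZMod p) * h)
    rcases mul_eq_zero.1 h3 with h | h
    · exact absurd h h4
    · exact h
  obtain ⟨i, j, hij⟩ := hex
  obtain ⟨m, hm⟩ := S.isUnit hij
  set X : Matrix (Fin 3) (Fin 3) A := Matrix.single j i ((m⁻¹ : Aˣ) : A) with hX
  refine ⟨⟨S.U X, S.U_mem X⟩, ?_⟩
  have hconj : (⟨x * S.U X * x⁻¹, S.K_le_T (Subgroup.Normal.conj_mem inferInstance _ (S.U_mem X) x)⟩ : S.T) =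
      ⟨S.U ((x : Matrix (Fin 3) (Fin 3) A) * X * xi), S.K_le_T (S.U_mem _)⟩ := by
    apply Subtype.ext
    exact S.U_conj x X
  show S.Lam χ ⟨x * S.U X * x⁻¹, _⟩ ≠ S.Lam χ ⟨S.U X, _⟩
  rw [hconj, Lam_U, Lam_U]
  intro h
  apply hχ
  have e1 : (B A * ((x : Matrix (Fin 3) (Fin 3) A) * X * xi)).trace = (B A * X).trace + 1 := by
    have h1 : (B A * ((x : Matrix (Fin 3) (Fin 3) A) * X * xi)).trace = (xi * B A * x * X).trace := by
      rw [← mul_assoc, ← mul_assoc, Matrix.trace_mul_comm]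
      simp only [mul_assoc]
    have h2 : (xi * B A * x * X).trace = (M * X).trace + (B A * X).trace := by
      rw [← Matrix.trace_add, ← add_mul, hM, sub_add_cancel]
    have h3 : (M * X).trace = 1 := by
      rw [hX, Matrix.trace_mul_single, ← hm]
      simp
    rw [h1, h2, h3, add_comm]
  rw [e1, u_add, map_mul] at h
  have := mul_left_cancel (a := χ (S.u (B A * X).trace)) (b := χ (S.u 1)) (c := 1) (by rw [h, mul_one])
  exact this

end Loc

end Pool.Agent.N18.Onn
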