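import Mathlib

/-! # Every `3 × 3` matrix over `F₂` commutes with a nontrivial invertible matrix -/

namespace Pool.Agent.N18.Onn

set_option maxRecDepth 100000

def allZ (f : ZMod 2 → Bool) : Bool := f 0 && f 1
def anyZ (f : ZMod 2 → Bool) : Bool := f 0 || f 1

lemma z2 (x : ZMod 2) : x = 0 ∨ x = 1 := by
  revert x; decide

lemma allZ_iff {f : ZMod 2 → Bool} (h : allZ f = true) (x : ZMod 2) : f x = true := by
  unfold allZ at h
  rw [Bool.and_eq_true] at h
  rcases z2 x with rfl | rfl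
  · exact h.1
  · exact h.2

lemma anyZ_iff {f : ZMod 2 → Bool} (h : anyZ f = true) : ∃ x, f x = true := by
  unfold anyZ at h
  rw [Bool.or_eq_true] at h
  rcases h with h | h
  · exact ⟨0, h⟩
  · exact ⟨1, h⟩

def chk (a b c d e f g h i a' b' c' d' e' f' g' h' i' : ZMod 2) : Bool :=
   decide (a * a' + b * d' + c * g' = a' * a + b' * d + c' * g) &&
   decide (a * b' + b * e' + c * h' = a' * b + b' * e + c' * h) &&
   decide (a * c' + b * f' + c * i' = a' * c + b' * f + c' * i) &&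
   decide (d * a' + e * d' + f * g' = d' * a + e' * d + f' * g) &&
   decide (d * b' + e * e' + f * h' = d' * b + e' * e + f' * h) &&
   decide (d * c' + e * f' + f * i' = d' * c + e' * f + f' * i) &&
   decide (g * a' + h * d' + i * g' = g' * a + h' * d + i' * g) &&
   decide (g * b' + h * e' + i * h' = g' * b + h' * e + i' * h) &&
   decide (g * c' + h * f' + i * i' = g' * c + h' * f + i' * i) &&
   decide (a' * (e' * i' - f' * h') - b' * (d' * i' - f' * g') + c' * (d' * h' - e' * g') = 1) &&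
   !decide (a' = 1 ∧ b' = 0 ∧ c' = 0 ∧ d' = 0 ∧ e' = 1 ∧ f' = 0 ∧ g' = 0 ∧ h' = 0 ∧ i' = 1)

theorem all_chk : (allZ fun a => allZ fun b => allZ fun c => allZ fun d => allZ fun e => allZ fun f =>
  allZ fun g => allZ fun h => allZ fun i =>
  anyZ fun a' => anyZ fun b' => anyZ fun c' => anyZ fun d' => anyZ fun e' => anyZ fun f' =>
  anyZ fun g' => anyZ fun h' => anyZ fun i' => chk a b c d e f g h i a' b' c' d' e' f' g' h' i') = true := by
  decide +kernel

/-- every `3 × 3` matrix over `F₂` commutes with a nontrivial invertible matrix -/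
theorem cent (M : Matrix (Fin 3) (Fin 3) (ZMod 2)) :
    ∃ t : Matrix.GeneralLinearGroup (Fin 3) (ZMod 2), t ≠ 1 ∧
      M * (t : Matrix (Fin 3) (Fin 3) (ZMod 2)) = (t : Matrix (Fin 3) (Fin 3) (ZMod 2)) * M := by
  have h := allZ_iff all_chk (M 0 0)
  have h := allZ_iff h (M 0 1)
  have h := allZ_iff h (M 0 2)
  have h := allZ_iff h (M 1 0)
  have h := allZ_iff h (M 1 1)
  have h := allZ_iff h (M 1 2)
  have h := allZ_iff h (M 2 0)
  have h := allZ_iff h (M 2 1)
  have h := allZ_iff h (M 2 2)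
  obtain ⟨a, h⟩ := anyZ_iff h
  obtain ⟨b, h⟩ := anyZ_iff h
  obtain ⟨c, h⟩ := anyZ_iff h
  obtain ⟨d, h⟩ := anyZ_iff h
  obtain ⟨e, h⟩ := anyZ_iff h
  obtain ⟨f, h⟩ := anyZ_iff h
  obtain ⟨g, h⟩ := anyZ_iff h
  obtain ⟨k, h⟩ := anyZ_iff h
  obtain ⟨i, h⟩ := anyZ_iff h
  simp only [chk, Bool.and_eq_true, decide_eq_true_eq, Bool.not_eq_true', decide_eq_false_iff_not] at h
  obtain ⟨⟨⟨⟨⟨⟨⟨⟨⟨⟨h1, h2⟩, h3⟩, h4⟩, h5⟩, h6⟩, h7⟩, h8⟩, h9⟩, h10⟩, h11⟩ := h
  set t : Matrix (Fin 3) (Fin 3) (ZMod 2) := !![a, b, c; d, e, f; g, k, i] with ht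
  have hd : t.det = 1 := by
    rw [ht, Matrix.det_fin_three]
    simp only [Matrix.of_apply, Matrix.cons_val', Matrix.cons_val_zero, Matrix.cons_val_one,
      Matrix.cons_val]
    linear_combination h10
  refine ⟨Matrix.GeneralLinearGroup.mk'' t (by rw [hd]; exact isUnit_one), ?_, ?_⟩
  · intro h
    have h' : t = 1 := congrArg (fun x : Matrix.GeneralLinearGroup (Fin 3) (ZMod 2) => (x : Matrix (Fin 3) (Fin 3) (ZMod 2))) h
    apply h11
    rw [ht] at h'
    have e1 := congrFun (congrFun h' 0) 0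
    have e2 := congrFun (congrFun h' 0) 1
    have e3 := congrFun (congrFun h' 0) 2
    have e4 := congrFun (congrFun h' 1) 0
    have e5 := congrFun (congrFun h' 1) 1
    have e6 := congrFun (congrFun h' 1) 2
    have e7 := congrFun (congrFun h' 2) 0
    have e8 := congrFun (congrFun h' 2) 1
    have e9 := congrFun (congrFun h' 2) 2
    simp at e1 e2 e3 e4 e5 e6 e7 e8 e9
    exact ⟨e1, e2, e3, e4, e5, e6, e7, e8, e9⟩
  · show M * t = t * M
    ext x y
    rw [Matrix.mul_apply, Matrix.mul_apply, Fin.sum_univ_three, Fin.sum_univ_three, ht]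
    fin_cases x <;> fin_cases y <;> simp <;> assumption

end Pool.Agent.N18.Onn
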