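import Mathlib
import Pool.Agent.N18.Onn.Big
import Pool.Agent.N18.Onn.Cent

/-! # For residue field `F₂` every irreducible representation of `GL₃(A)` has dimension at most 84 -/

namespace Pool.Agent.N18.Onn

open Matrix

set_option linter.unusedSectionVars false

/-- an irreducible representation has dimension at most the index of the stabiliser of a line -/
lemma finrank_le_index {G : Type} [Group G] [Finite G] {V : Type} [AddCommGroup V] [Module ℂ V]
    (ρ : Representation ℂ G V)
    (hirr : ∀ W : Submodule ℂ V, (∀ g v, v ∈ W → ρ g v ∈ W) → W = ⊥ ∨ W = ⊤)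
    (v : V) (hv : v ≠ 0) (H : Subgroup G) (hH : ∀ h ∈ H, ∃ c : ℂ, ρ h v = c • v) :
    Module.finrank ℂ V ≤ H.index := by
  have : Fintype (G ⧸ H) := Fintype.ofFinite _
  set f : G ⧸ H → V := fun q => ρ q.out v with hf
  have hspan : Submodule.span ℂ (Set.range f) = ⊤ := by
    have hmem : ∀ g : G, ρ g v ∈ Submodule.span ℂ (Set.range f) := by
      intro g
      obtain ⟨h, hh⟩ := QuotientGroup.mk_out_eq_mul H g
      have e : g = (QuotientGroup.mk g : G ⧸ H).out * (h : G)⁻¹ := by rw [hh]; group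
      obtain ⟨c, hc⟩ := hH (h : G)⁻¹ (H.inv_mem h.2)
      rw [e, map_mul, Module.End.mul_apply, hc, map_smul]
      exact Submodule.smul_mem _ _ (Submodule.subset_span ⟨_, rfl⟩)
    rcases hirr (Submodule.span ℂ (Set.range f)) (by
      intro g w hw
      induction hw using Submodule.span_induction with
      | mem x hx =>
        obtain ⟨q, rfl⟩ := hx
        rw [hf]
        simp only []
        rw [← Module.End.mul_apply, ← map_mul]
        exact hmem _
      | zero => rw [map_zero]; exact Submodule.zero_mem _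
      | add x y _ _ hx hy => rw [map_add]; exact Submodule.add_mem _ hx hy
      | smul a x _ hx => rw [map_smul]; exact Submodule.smul_mem _ _ hx) with h | h
    · exfalso
      have h1 := hmem 1
      rw [h, map_one, Module.End.one_apply] at h1
      exact hv ((Submodule.mem_bot ℂ).1 h1)
    · exact h
  have h1 : Module.finrank ℂ (Submodule.span ℂ (Set.range f)) ≤ Fintype.card (G ⧸ H) :=
    finrank_range_le_card f
  rw [hspan, finrank_top] at h1
  rw [Subgroup.index, Nat.card_eq_fintype_card]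
  exact h1

/-- commuting operators have a common eigenvector -/
lemma exists_common {G : Type} [Group G] {V : Type} [AddCommGroup V] [Module ℂ V]
    [FiniteDimensional ℂ V] [Nontrivial V] (ρ : Representation ℂ G V) (K : Subgroup G)
    (hK : ∀ a ∈ K, ∀ b ∈ K, a * b = b * a) :
    ∃ v : V, v ≠ 0 ∧ ∀ k ∈ K, ∃ c : ℂ, ρ k v = c • v := by
  have hwf : WellFounded ((· < ·) : Submodule ℂ V → Submodule ℂ V → Prop) := wellFounded_lt
  obtain ⟨U, ⟨hU0, hUK⟩, hmin⟩ := hwf.has_min
    {U : Submodule ℂ V | U ≠ ⊥ ∧ ∀ k ∈ K, ∀ v ∈ U, ρ k v ∈ U} ⟨⊤, top_ne_bot, by intros; trivial⟩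
  obtain ⟨v, hvU, hv0⟩ := (Submodule.ne_bot_iff U).1 hU0
  refine ⟨v, hv0, ?_⟩
  intro k hk
  have : Nontrivial U := (Submodule.nontrivial_iff_ne_bot).2 hU0
  obtain ⟨c, hc⟩ := Module.End.exists_eigenvalue ((ρ k).restrict (hUK k hk))
  obtain ⟨w, hw⟩ := hc.exists_hasEigenvector
  have hw1 : ρ k (w : V) = c • (w : V) := by
    have := hw.apply_eq_smul
    exact congrArg Subtype.val this
  have hw0 : (w : V) ≠ 0 := by
    intro h
    exact hw.2 (Subtype.ext h)
  set E : Submodule ℂ V := U ⊓ LinearMap.ker (ρ k - c • LinearMap.id) with hE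
  have hEmem : ∀ x, x ∈ E ↔ x ∈ U ∧ ρ k x = c • x := by
    intro x
    rw [hE, Submodule.mem_inf, LinearMap.mem_ker]
    simp [sub_eq_zero]
  have hEU : E = U := by
    by_contra hne
    have hlt : E < U := lt_of_le_of_ne inf_le_left hne
    refine hmin E ⟨?_, ?_⟩ hlt
    · rw [Submodule.ne_bot_iff]
      exact ⟨w, (hEmem _).2 ⟨w.2, hw1⟩, hw0⟩
    · intro l hl x hx
      rw [hEmem] at hx ⊢
      refine ⟨hUK l hl x hx.1, ?_⟩
      rw [← Module.End.mul_apply, ← map_mul, hK k hk l hl, map_mul, Module.End.mul_apply, hx.2,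
        map_smul]
  refine ⟨c, ?_⟩
  have : v ∈ E := by rw [hEU]; exact hvU
  exact ((hEmem v).1 this).2

variable {A : Type} [CommRing A] [Finite A]

namespace Loc

variable {p : ℕ} [Fact p.Prime] (S : Loc A p)

lemma U_add (X Y : Matrix (Fin 3) (Fin 3) A) : S.U (X + Y) = S.U X * S.U Y := by
  apply Units.ext
  rw [Units.val_mul, U_val, U_val, U_val]
  have : (S.w • X) * (S.w • Y) = 0 := by
    rw [Matrix.smul_mul, Matrix.mul_smul, smul_smul, S.ww, zero_smul]
  rw [smul_add]
  generalize S.w • X = X' at *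
  generalize S.w • Y = Y' at *
  calc 1 + (X' + Y') = (1 + X') * (1 + Y') - X' * Y' := by noncomm_ring
    _ = _ := by rw [this, sub_zero]

lemma mem_K {g : GL (Fin 3) A} (hg : g ∈ S.K) : ∃ X, g = S.U X := by
  have h : ∀ i j, ∃ b, (g i j) - (1 : Matrix (Fin 3) (Fin 3) A) i j = S.w * b := by
    intro i j
    apply (S.ker _).1
    rw [map_sub]
    have h1 : S.Pi g = 1 := hg
    rw [← Pi_apply, h1]
    show (1 : Matrix (Fin 3) (Fin 3) (ZMod p)) i j - S.φ ((1 : Matrix (Fin 3) (Fin 3) A) i j) = 0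
    rw [Matrix.one_apply, Matrix.one_apply]
    split_ifs <;> simp
  choose X hX using h
  refine ⟨X, ?_⟩
  ext i j
  have h2 := S.U_apply X i j
  have h3 := hX i j
  have h4 : (S.U X) i j = g i j := by rw [h2]; linear_combination -h3
  exact h4.symm

lemma K_comm : ∀ a ∈ S.K, ∀ b ∈ S.K, a * b = b * a := by
  intro a ha b hb
  obtain ⟨X, rfl⟩ := S.mem_K ha
  obtain ⟨Y, rfl⟩ := S.mem_K hb
  rw [← U_add, ← U_add, add_comm]

lemma index_K : S.K.index = Nat.card (GL (Fin 3) (ZMod p)) := by
  rw [K, Subgroup.index_ker, Nat.card_congr]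
  have : S.Pi.range = ⊤ := MonoidHom.range_eq_top.2 S.Pi_surj
  rw [this]
  exact Subgroup.topEquiv.toEquiv

end Loc

lemma two_eq_zero_Z2 : (2 : ZMod 2) = 0 := by decide

/-- the sign -/
def sg (x : ZMod 2) : ℂ := if x = 0 then 1 else -1

lemma sg_add (x y : ZMod 2) : sg (x + y) = sg x * sg y := by
  rcases z2 x with rfl | rfl <;> rcases z2 y with rfl | rfl
  · simp [sg]
  · simp [sg]
  · simp [sg]
  · have : (1 + 1 : ZMod 2) = 0 := by decide
    rw [this]; simp [sg]

lemma sg_ne (x : ZMod 2) : sg x ≠ 0 := by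
  unfold sg; split_ifs <;> norm_num

/-- The bound. -/
theorem Loc.small (S : Loc A 2) {V : Type} [AddCommGroup V] [Module ℂ V] [FiniteDimensional ℂ V] [Nontrivial V]
    (ρ : Representation ℂ (GL (Fin 3) A) V)
    (hirr : ∀ W : Submodule ℂ V, (∀ g v, v ∈ W → ρ g v ∈ W) → W = ⊥ ∨ W = ⊤) :
    Module.finrank ℂ V < 168 := by
  classical
  have hp : Fact (Nat.Prime 2) := ⟨Nat.prime_two⟩
  obtain ⟨v0, hv0, hc⟩ := exists_common ρ S.K S.K_comm
  -- character values on `U X`
  have hc' : ∀ X : Matrix (Fin 3) (Fin 3) A, ∃ c : ℂ, ρ (S.U X) v0 = c • v0 := fun X => hc _ (S.U_mem X)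
  choose c hcX using hc'
  have hcadd : ∀ X Y, c (X + Y) = c X * c Y := by
    intro X Y
    have h1 : ρ (S.U (X + Y)) v0 = (c X * c Y) • v0 := by
      rw [S.U_add, map_mul, Module.End.mul_apply, hcX, map_smul, hcX, smul_smul, mul_comm]
    rw [hcX] at h1
    exact smul_left_injective ℂ hv0 h1
  have hc0 : ∀ X, S.U X = 1 → c X = 1 := by
    intro X hX
    have h1 := hcX X
    rw [hX, map_one, Module.End.one_apply] at h1
    exact (smul_left_injective ℂ hv0 (by simpa using h1)).symm
  -- elements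
  have hdich : ∀ a : A, S.w * a = 0 ∨ S.w * a = S.w := by
    intro a
    rcases z2 (S.φ a) with h | h
    · left; exact (S.ann _).2 h
    · right
      have : S.w * (a - 1) = 0 := (S.ann _).2 (by rw [map_sub, h, map_one, sub_self])
      linear_combination this
  have hU2 : ∀ X Y : Matrix (Fin 3) (Fin 3) A, S.w • X = S.w • Y → S.U X = S.U Y := by
    intro X Y h
    apply Units.ext
    rw [S.U_val, S.U_val, h]
  have hcongr : ∀ X Y : Matrix (Fin 3) (Fin 3) A, S.w • X = S.w • Y → c X = c Y := by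
    intro X Y h
    have h1 := hcX X
    rw [hU2 X Y h, hcX Y] at h1
    exact (smul_left_injective ℂ hv0 h1).symm
  -- the dual matrix
  set b : Matrix (Fin 3) (Fin 3) (ZMod 2) := fun i j =>
    if c (Matrix.single j i 1) = 1 then 0 else 1 with hb
  have h2w : S.w * 2 = 0 := by
    rw [S.ann]
    rw [map_ofNat]
    exact two_eq_zero_Z2
  have hsingle : ∀ i j (a : A), c (Matrix.single i j a) = sg (b j i * S.φ a) := by
    intro i j a
    have hone : c (Matrix.single i j 1) = sg (b j i) := by
      have hsq : c (Matrix.single i j 1) * c (Matrix.single i j 1) = 1 := by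
        rw [← hcadd]
        apply hc0
        apply Units.ext
        rw [S.U_val, ← Matrix.single_add, Matrix.smul_single, smul_eq_mul]
        have : S.w * (1 + 1) = 0 := by rw [one_add_one_eq_two]; exact h2w
        rw [this, Matrix.single_zero, add_zero]
        rfl
      rw [hb]
      simp only []
      split_ifs with h
      · rw [h]; simp [sg]
      · have : c (Matrix.single i j 1) = -1 := by
          have h3 : (c (Matrix.single i j 1) - 1) * (c (Matrix.single i j 1) + 1) = 0 := by
            linear_combination hsq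
          rcases mul_eq_zero.1 h3 with h4 | h4
          · exact absurd (sub_eq_zero.1 h4) h
          · linear_combination h4
        rw [this]; simp [sg]
    rcases z2 (S.φ a) with h | h
    · rw [h, mul_zero]
      have : c (Matrix.single i j a) = 1 := by
        apply hc0
        apply Units.ext
        rw [S.U_val, Matrix.smul_single, smul_eq_mul, (S.ann _).2 h, Matrix.single_zero, add_zero]
        rfl
      rw [this]; simp [sg]
    · rw [h, mul_one, ← hone]
      apply hcongr
      rw [Matrix.smul_single, Matrix.smul_single, smul_eq_mul, smul_eq_mul, mul_one]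
      have : S.w * (a - 1) = 0 := (S.ann _).2 (by rw [map_sub, h, map_one, sub_self])
      have h3 : S.w * a = S.w := by linear_combination this
      rw [h3]
  have hform : ∀ X : Matrix (Fin 3) (Fin 3) A, c X = sg ((b * X.map S.φ).trace) := by
    intro X
    induction X using Matrix.induction_on' with
    | h_zero =>
      rw [hc0 0 (by apply Units.ext; rw [S.U_val, smul_zero, add_zero]; rfl)]
      have : (0 : Matrix (Fin 3) (Fin 3) A).map S.φ = 0 := by ext; simp
      rw [this]; simp [sg]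
    | h_add X Y hX hY =>
      rw [hcadd, hX, hY, ← sg_add]
      congr 1
      have : (X + Y).map S.φ = X.map S.φ + Y.map S.φ := by ext; simp
      rw [this, mul_add, Matrix.trace_add]
    | h_std_basis i j a =>
      rw [hsingle]
      congr 1
      have : (Matrix.single i j a).map S.φ = Matrix.single i j (S.φ a) := by
        ext x y
        simp only [Matrix.map_apply, Matrix.single_apply]
        split_ifs <;> simp
      rw [this, Matrix.trace_mul_single]
      rfl
  -- the commuting element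
  obtain ⟨tb, htb1, htb2⟩ := cent b
  obtain ⟨t, ht⟩ := S.Pi_surj tb
  have htK : t ∉ S.K := by
    intro h
    apply htb1
    rw [← ht]; exact h
  have hinv : ∀ X : Matrix (Fin 3) (Fin 3) A,
      c (((t⁻¹ : GL (Fin 3) A) : Matrix (Fin 3) (Fin 3) A) * X * (t : Matrix (Fin 3) (Fin 3) A)) = c X := by
    intro X
    rw [hform, hform]
    congr 1
    have e1 : (((t⁻¹ : GL (Fin 3) A) : Matrix (Fin 3) (Fin 3) A) * X * (t : Matrix (Fin 3) (Fin 3) A)).map S.φ =
        ((tb⁻¹ : GL (Fin 3) (ZMod 2)) : Matrix (Fin 3) (Fin 3) (ZMod 2)) * X.map S.φ * (tb : Matrix (Fin 3) (Fin 3) (ZMod 2)) := by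
      rw [Matrix.map_mul, Matrix.map_mul, ← ht, ← map_inv]
      rfl
    rw [e1]
    have e2 : b = (tb : Matrix (Fin 3) (Fin 3) (ZMod 2)) * b * ((tb⁻¹ : GL (Fin 3) (ZMod 2)) : Matrix (Fin 3) (Fin 3) (ZMod 2)) := by
      rw [← htb2, mul_assoc]
      have : (tb : Matrix (Fin 3) (Fin 3) (ZMod 2)) * ((tb⁻¹ : GL (Fin 3) (ZMod 2)) : Matrix (Fin 3) (Fin 3) (ZMod 2)) = 1 := Units.mul_inv tb
      rw [this, mul_one]
    calc (b * (((tb⁻¹ : GL (Fin 3) (ZMod 2)) : Matrix (Fin 3) (Fin 3) (ZMod 2)) * X.map S.φ * (tb : Matrix (Fin 3) (Fin 3) (ZMod 2)))).trace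
        = ((tb : Matrix (Fin 3) (Fin 3) (ZMod 2)) * b * ((tb⁻¹ : GL (Fin 3) (ZMod 2)) : Matrix (Fin 3) (Fin 3) (ZMod 2)) * X.map S.φ).trace := by
          rw [← mul_assoc, ← mul_assoc, Matrix.trace_mul_comm]
          simp only [mul_assoc]
      _ = (b * X.map S.φ).trace := by rw [← e2]
  -- the eigenspace
  set E : Submodule ℂ V := ⨅ X : Matrix (Fin 3) (Fin 3) A, LinearMap.ker (ρ (S.U X) - c X • LinearMap.id) with hE
  have hEmem : ∀ x, x ∈ E ↔ ∀ X, ρ (S.U X) x = c X • x := by
    intro x
    rw [hE, Submodule.mem_iInf]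
    apply forall_congr'
    intro X
    rw [LinearMap.mem_ker]
    simp [sub_eq_zero]
  have hv0E : v0 ∈ E := (hEmem v0).2 hcX
  have hEt : ∀ x ∈ E, ρ t x ∈ E := by
    intro x hx
    rw [hEmem] at hx ⊢
    intro X
    have e : S.U X * t = t * S.U (((t⁻¹ : GL (Fin 3) A) : Matrix (Fin 3) (Fin 3) A) * X * (t : Matrix (Fin 3) (Fin 3) A)) := by
      have := S.U_conj t⁻¹ X
      rw [inv_inv] at this
      rw [← this]; group
    rw [← Module.End.mul_apply, ← map_mul, e, map_mul, Module.End.mul_apply, hx, hinv, map_smul]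
  have : Nontrivial E := (Submodule.nontrivial_iff_ne_bot).2 (by
    rw [Submodule.ne_bot_iff]; exact ⟨v0, hv0E, hv0⟩)
  obtain ⟨d, hd⟩ := Module.End.exists_eigenvalue ((ρ t).restrict hEt)
  obtain ⟨w, hw⟩ := hd.exists_hasEigenvector
  have hw1 : ρ t (w : V) = d • (w : V) := by
    have := hw.apply_eq_smul
    exact congrArg Subtype.val this
  have hw0 : (w : V) ≠ 0 := by
    intro h
    exact hw.2 (Subtype.ext h)
  have hd0 : d ≠ 0 := by
    intro h
    rw [h, zero_smul] at hw1
    apply hw0
    have : ρ t⁻¹ (ρ t (w : V)) = w := by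
      rw [← Module.End.mul_apply, ← map_mul, inv_mul_cancel, map_one, Module.End.one_apply]
    rw [← this, hw1, map_zero]
  -- the stabiliser of the line
  set H : Subgroup (GL (Fin 3) A) :=
    { carrier := {g | ∃ c : ℂ, c ≠ 0 ∧ ρ g (w : V) = c • (w : V)}
      one_mem' := ⟨1, one_ne_zero, by rw [map_one, Module.End.one_apply, one_smul]⟩
      mul_mem' := by
        rintro a b ⟨c1, h1, h2⟩ ⟨c2, h3, h4⟩
        refine ⟨c1 * c2, mul_ne_zero h1 h3, ?_⟩
        rw [map_mul, Module.End.mul_apply, h4, map_smul, h2, smul_smul, mul_comm]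
      inv_mem' := by
        rintro a ⟨c1, h1, h2⟩
        refine ⟨c1⁻¹, inv_ne_zero h1, ?_⟩
        have : ρ a⁻¹ (ρ a (w : V)) = w := by
          rw [← Module.End.mul_apply, ← map_mul, inv_mul_cancel, map_one, Module.End.one_apply]
        rw [h2, map_smul] at this
        rw [eq_inv_smul_iff₀ h1, this] } with hH
  have hle := finrank_le_index ρ hirr (w : V) hw0 H (by
    rintro h ⟨c1, _, h2⟩
    exact ⟨c1, h2⟩)
  have hKH : S.K ≤ H := by
    intro g hg
    obtain ⟨X, rfl⟩ := S.mem_K hg
    have h1 := (hEmem _).1 w.2 X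
    refine ⟨c X, ?_, h1⟩
    rw [hform]; exact sg_ne _
  have htH : t ∈ H := ⟨d, hd0, hw1⟩
  have hidx : S.K.index = 168 := by
    rw [S.index_K]
    have := Matrix.card_GL_field (𝔽 := ZMod 2) 3
    rw [this, Fin.prod_univ_three]
    simp [ZMod.card]
  have hmul := Subgroup.relIndex_mul_index hKH
  have hrel : S.K.relIndex H ≠ 1 := by
    intro h
    rw [Subgroup.relIndex_eq_one] at h
    exact htK (h htH)
  have hHi : H.index ≠ 0 := by
    intro h
    rw [h, mul_zero, hidx] at hmul
    norm_num at hmul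
  rw [hidx] at hmul
  have hrel0 : S.K.relIndex H ≠ 0 := by
    intro h
    rw [h, zero_mul] at hmul
    norm_num at hmul
  have h2 : 2 ≤ S.K.relIndex H := by omega
  have : 2 * H.index ≤ 168 := by
    calc 2 * H.index ≤ S.K.relIndex H * H.index := Nat.mul_le_mul_right _ h2
      _ = 168 := hmul
  omega

end Pool.Agent.N18.Onn
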