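import Mathlib
import Pool.Agent.N18.Onn.Small

/-! # The local rings `ℤ_p / p²` -/

namespace Pool.Agent.N18.Onn

open IsLocalRing

variable (p : ℕ) [hp : Fact p.Prime]

lemma mem_max_iff (x : ℤ_[p]) : x ∈ maximalIdeal ℤ_[p] ↔ (p : ℤ_[p]) ∣ x := by
  rw [PadicInt.maximalIdeal_eq_span_p, Ideal.mem_span_singleton]

lemma mem_max_sq_iff (x : ℤ_[p]) : x ∈ maximalIdeal ℤ_[p] ^ 2 ↔ (p : ℤ_[p]) ^ 2 ∣ x := by
  rw [PadicInt.maximalIdeal_eq_span_p, Ideal.span_singleton_pow, Ideal.mem_span_singleton]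

instance finQ : Finite (ℤ_[p] ⧸ maximalIdeal ℤ_[p] ^ 2) := by
  have h : maximalIdeal ℤ_[p] ^ 2 = RingHom.ker (PadicInt.toZModPow (p := p) 2) := by
    rw [PadicInt.ker_toZModPow, PadicInt.maximalIdeal_eq_span_p, Ideal.span_singleton_pow]
  rw [h]
  have : NeZero (p ^ 2) := ⟨pow_ne_zero _ hp.out.ne_zero⟩
  have e := RingHom.quotientKerEquivOfSurjective (f := PadicInt.toZModPow (p := p) 2)
    (ZMod.ringHom_surjective _)
  exact Finite.of_equiv _ e.symm.toEquiv

lemma toZMod_eq_zero_iff (x : ℤ_[p]) : PadicInt.toZMod x = 0 ↔ (p : ℤ_[p]) ∣ x := by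
  rw [← mem_max_iff, ← PadicInt.ker_toZMod, RingHom.mem_ker]

/-- the local ring of length two -/
noncomputable def loc : Loc (ℤ_[p] ⧸ maximalIdeal ℤ_[p] ^ 2) p where
  φ := Ideal.Quotient.lift _ (PadicInt.toZMod (p := p)) (by
    intro a ha
    rw [toZMod_eq_zero_iff]
    rw [mem_max_sq_iff] at ha
    exact (Dvd.intro _ (by ring : (p : ℤ_[p]) * p = (p : ℤ_[p]) ^ 2)).trans ha)
  w := Ideal.Quotient.mk _ (p : ℤ_[p])
  surj := by
    apply Ideal.Quotient.lift_surjective_of_surjective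
    exact ZMod.ringHom_surjective _
  ker := by
    intro a
    obtain ⟨x, rfl⟩ := Ideal.Quotient.mk_surjective a
    rw [Ideal.Quotient.lift_mk, toZMod_eq_zero_iff]
    constructor
    · rintro ⟨y, rfl⟩
      exact ⟨Ideal.Quotient.mk _ y, by rw [map_mul]⟩
    · rintro ⟨b, hb⟩
      obtain ⟨y, rfl⟩ := Ideal.Quotient.mk_surjective b
      rw [← map_mul, Ideal.Quotient.eq, mem_max_sq_iff] at hb
      have h1 : (p : ℤ_[p]) ∣ x - p * y := (Dvd.intro _ (by ring : (p : ℤ_[p]) * p = (p : ℤ_[p]) ^ 2)).trans hb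
      have h2 := dvd_add h1 (Dvd.intro y rfl)
      simpa using h2
  ann := by
    intro a
    obtain ⟨x, rfl⟩ := Ideal.Quotient.mk_surjective a
    rw [Ideal.Quotient.lift_mk, toZMod_eq_zero_iff, ← map_mul, Ideal.Quotient.eq_zero_iff_mem,
      mem_max_sq_iff, pow_two]
    have h0 : (p : ℤ_[p]) ≠ 0 := by
      exact_mod_cast hp.out.ne_zero
    exact mul_dvd_mul_iff_left h0

instance finRes : Finite (ResidueField ℤ_[p]) :=
  Finite.of_equiv _ (PadicInt.residueField (p := p)).symm.toEquiv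

lemma card_res : Nat.card (ResidueField ℤ_[p]) = p := by
  rw [Nat.card_congr (PadicInt.residueField (p := p)).toEquiv, Nat.card_zmod]

end Pool.Agent.N18.Onn
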